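import Pool.Agent.H242.GX.Stm5

/-! GX5-END: scaling at a zero of the curvature of order 6, Taylor coefficients of `(1 + s)^8`. -/

set_option autoImplicit false

open Set Filter Topology
open scoped ContDiff

namespace Pool.Agent.H772.GX.END

open Pool.Agent.H242.GX

/-- Taylor expansion in the second variable. -/
theorem tay (hHAD : S_HAD) (Φ : ℝ × ℝ → ℝ) (hΦ : ContDiff ℝ ∞ Φ) (n : ℕ) :
    ∃ (b : ℕ → ℝ → ℝ) (Ψ : ℝ × ℝ → ℝ), (∀ j, Continuous (b j)) ∧ ContDiff ℝ ∞ Ψ ∧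
      ∀ t s : ℝ, Φ (t, s) = ∑ j ∈ Finset.range n, b j t * s ^ j + s ^ n * Ψ (t, s) := by
  induction n with
  | zero => exact ⟨fun _ _ => 0, Φ, fun _ => continuous_const, hΦ, fun t s => by simp⟩
  | succ n ih =>
    obtain ⟨b, Ψ, hb, hΨ, h⟩ := ih
    have h0 : ContDiff ℝ ∞ (fun z : ℝ × ℝ => Ψ (z.1, 0)) :=
      hΨ.comp (contDiff_fst.prodMk contDiff_const)
    obtain ⟨Ψ', hΨ', h'⟩ := hHAD (fun z => Ψ z - Ψ (z.1, 0)) (hΨ.sub h0) (fun t => by simp)
    refine ⟨Function.update b n (fun t => Ψ (t, 0)), Ψ', fun j => ?_, hΨ', fun t s => ?_⟩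
    · rcases eq_or_ne j n with rfl | hj
      · rw [Function.update_self]
        exact hΨ.continuous.comp (continuous_id.prodMk continuous_const)
      · rw [Function.update_of_ne hj]
        exact hb j
    · rw [h t s, Finset.sum_range_succ, Function.update_self]
      have h1 : ∑ j ∈ Finset.range n, Function.update b n (fun t => Ψ (t, 0)) j t * s ^ j =
          ∑ j ∈ Finset.range n, b j t * s ^ j := by
        refine Finset.sum_congr rfl fun j hj => ?_
        rw [Function.update_of_ne (Finset.mem_range.mp hj).ne]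
      rw [h1]
      have h2 := h' t s
      simp only at h2
      have h3 : Ψ (t, s) = Ψ (t, 0) + s * Ψ' (t, s) := by linarith
      rw [h3]
      ring

/-- A polynomial of degree `< n` which is divisible by `s ^ n` vanishes. -/
theorem coef (n : ℕ) : ∀ (c : ℕ → ℝ) (Ψ : ℝ → ℝ), Continuous Ψ →
    (∀ s : ℝ, ∑ j ∈ Finset.range n, c j * s ^ j = s ^ n * Ψ s) → ∀ j < n, c j = 0 := by
  induction n with
  | zero => intro c Ψ _ _ j hj; omega
  | succ n ih =>
    intro c Ψ hΨ h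
    have h0 : c 0 = 0 := by
      have := h 0
      rw [Finset.sum_range_succ'] at this
      simpa using this
    have h1 : ∀ s : ℝ, ∑ j ∈ Finset.range n, c (j + 1) * s ^ j = s ^ n * Ψ s := by
      have hc1 : Continuous (fun s : ℝ => ∑ j ∈ Finset.range n, c (j + 1) * s ^ j) := by fun_prop
      have hc2 : Continuous (fun s : ℝ => s ^ n * Ψ s) := by fun_prop
      have hd : Dense ({0}ᶜ : Set ℝ) := dense_compl_singleton 0
      have he := Continuous.ext_on hd hc1 hc2 (fun s hs => by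
        have h2 := h s
        rw [Finset.sum_range_succ', h0, zero_mul, add_zero] at h2
        have h3 : s ≠ 0 := hs
        have h4 : s * ∑ j ∈ Finset.range n, c (j + 1) * s ^ j = s * (s ^ n * Ψ s) := by
          rw [Finset.mul_sum, ← mul_assoc, ← pow_succ', ← h2]
          exact Finset.sum_congr rfl fun j _ => by ring
        exact mul_left_cancel₀ h3 h4)
      exact fun s => congrFun he s
    intro j hj
    rcases j with _ | j
    · exact h0
    · exact ih (fun j => c (j + 1)) Ψ hΨ h1 j (by omega)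

theorem gx_END (hJET : S_JET) (hHAD : S_HAD) : S_END := by
  intro g N δ G h hh h0 hg
  obtain ⟨N₁, hN₁, hNe⟩ := hHAD N G.smN G.zero
  have hδ := G.pos
  have hA0 : N₁ (0, 0) ≠ 0 := by
    have h1 := G.reg 0 (by simpa using hδ)
    have h2 : (fun η => N (0, η)) = fun η => η * N₁ (0, η) := funext fun η => hNe 0 η
    rw [h2] at h1
    have h4 : DifferentiableAt ℝ (fun η : ℝ => N₁ ((0 : ℝ), η)) 0 :=
      ((hN₁.comp (contDiff_const.prodMk contDiff_id)).differentiable (by simp)) 0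
    have h3 : HasDerivAt (fun η : ℝ => η * N₁ (0, η))
        (1 * N₁ (0, 0) + 0 * deriv (fun η => N₁ (0, η)) 0) 0 :=
      (hasDerivAt_id (0 : ℝ)).mul h4.hasDerivAt
    rw [h3.deriv] at h1
    simpa using h1
  have hdh : ∀ t, HasDerivAt h (deriv h t) t := fun t =>
    ((hh.differentiable (by simp)) t).hasDerivAt
  have hdg : ∀ t, deriv g t = deriv g 0 + 8 * t ^ 7 * h t + t ^ 8 * deriv h t := by
    intro t
    have h2 : HasDerivAt (fun x : ℝ => g 0 + deriv g 0 * x + x ^ 8 * h x)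
        (deriv g 0 * 1 + (((8 : ℕ) : ℝ) * t ^ (8 - 1) * h t + t ^ 8 * deriv h t)) t := by
      refine HasDerivAt.add ?_ ?_
      · exact ((hasDerivAt_id t).const_mul _).const_add _
      · exact (hasDerivAt_pow 8 t).mul (hdh t)
    have h4 : HasDerivAt g
        (deriv g 0 * 1 + (((8 : ℕ) : ℝ) * t ^ (8 - 1) * h t + t ^ 8 * deriv h t)) t :=
      h2.congr_of_eventuallyEq (Eventually.of_forall hg)
    rw [h4.deriv]
    norm_num
    ring
  have hdhs : ContDiff ℝ ∞ (deriv h) := (contDiff_infty_iff_deriv.mp hh).2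
  obtain ⟨E, hE⟩ : ∃ E : ℝ × ℝ → ℝ, E = fun z => h z.1 + (8 * h z.1 + z.1 * deriv h z.1) * z.2 -
    (1 + z.2) ^ 8 * h (z.1 * (1 + z.2)) := ⟨_, rfl⟩
  have hEs : ContDiff ℝ ∞ E := by
    have a1 : ContDiff ℝ ∞ (fun z : ℝ × ℝ => h z.1) := hh.comp contDiff_fst
    have a2 : ContDiff ℝ ∞ (fun z : ℝ × ℝ => deriv h z.1) := hdhs.comp contDiff_fst
    have a3 : ContDiff ℝ ∞ (fun z : ℝ × ℝ => h (z.1 * (1 + z.2))) :=
      hh.comp (contDiff_fst.mul (contDiff_const.add contDiff_snd))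
    rw [hE]
    exact (a1.add (((contDiff_const.mul a1).add (contDiff_fst.mul a2)).mul contDiff_snd)).sub
      (((contDiff_const.add contDiff_snd).pow 8).mul a3)
  have hEid : ∀ t σ : ℝ, g t + deriv g t * (t * σ) - g (t + t * σ) = t ^ 8 * E (t, σ) := by
    intro t σ
    rw [hg t, hdg t, hg (t + t * σ), hE]
    have : t + t * σ = t * (1 + σ) := by ring
    rw [this]
    ring
  obtain ⟨Φ, hΦ⟩ : ∃ Φ : ℝ × ℝ → ℝ, Φ = fun z => E z * N₁ (z.1 * (1 + z.2), z.1 ^ 8 * E z) :=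
    ⟨_, rfl⟩
  have hΦs : ContDiff ℝ ∞ Φ := by
    rw [hΦ]
    exact hEs.mul (hN₁.comp ((contDiff_fst.mul (contDiff_const.add contDiff_snd)).prodMk
      ((contDiff_fst.pow 8).mul hEs)))
  have hNΦ : ∀ t σ : ℝ, N (t + t * σ, g t + deriv g t * (t * σ) - g (t + t * σ)) =
      t ^ 8 * Φ (t, σ) := by
    intro t σ
    rw [hEid, hNe, hΦ]
    have : t + t * σ = t * (1 + σ) := by ring
    rw [this]
    ring
  obtain ⟨b, Ψ, hb, hΨ, hT⟩ := tay hHAD Φ hΦs 8
  have hrel : ∀ t : ℝ, 0 < t → t < δ →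
      2 * b 2 t ^ 5 * b 7 t - 6 * b 2 t ^ 4 * b 3 t * b 6 t +
        15 * b 2 t ^ 3 * b 3 t ^ 2 * b 5 t - 20 * b 2 t ^ 2 * b 3 t ^ 3 * b 4 t +
        9 * b 2 t * b 3 t ^ 5 = 0 := by
    intro t ht0 htδ
    obtain ⟨k, r, hr, hinv⟩ := G.inv t ht0 htδ
    obtain ⟨C, hC⟩ : ∃ C, ∀ s ∈ Icc (-1 : ℝ) 1, ‖Ψ (t, s)‖ ≤ C :=
      isCompact_Icc.exists_bound_of_continuousOn
        (hΨ.continuous.comp (continuous_const.prodMk continuous_id)).continuousOn
    have hrt : 0 < min (r / t) 1 := lt_min (div_pos hr ht0) one_pos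
    have key := hJET.2 (fun s => Φ (t, s)) (fun j => b j t) (k * t) (min (r / t) 1) C hrt
      (fun s hs => by
        rw [hT t s, add_sub_cancel_left, abs_mul, abs_pow, mul_comm]
        have h1 : |s| < 1 := hs.trans_le (min_le_right _ _)
        have h2 := hC s ⟨(abs_lt.mp h1).1.le, (abs_lt.mp h1).2.le⟩
        rw [Real.norm_eq_abs] at h2
        exact mul_le_mul_of_nonneg_right h2 (by positivity))
      (fun s hs => by
        have h1 : |s| < r / t := hs.trans_le (min_le_left _ _)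
        have h2 : |t * s| < r := by
          rw [abs_mul, abs_of_pos ht0, mul_comm]
          exact (lt_div_iff₀ ht0).mp h1
        obtain ⟨h3, h4⟩ := hinv (t * s) h2
        have e0 : k * (t * s) = k * t * s := by ring
        have e1 : -(t * s) / (1 + k * (t * s)) = t * (-s / (1 + k * t * s)) := by
          rw [e0]
          ring
        rw [e1, hNΦ, hNΦ] at h4
        rw [e0] at h3
        exact ⟨h3, mul_left_cancel₀ (pow_pos ht0 8).ne' h4⟩)
    obtain ⟨-, h3, h7⟩ := key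
    rw [h3] at h7 ⊢
    linear_combination (b 2 t) ^ 5 * h7
  have hrel0 : 2 * b 2 0 ^ 5 * b 7 0 - 6 * b 2 0 ^ 4 * b 3 0 * b 6 0 +
        15 * b 2 0 ^ 3 * b 3 0 ^ 2 * b 5 0 - 20 * b 2 0 ^ 2 * b 3 0 ^ 3 * b 4 0 +
        9 * b 2 0 * b 3 0 ^ 5 = 0 := by
    have c2 := hb 2
    have c3 := hb 3
    have c4 := hb 4
    have c5 := hb 5
    have c6 := hb 6
    have c7 := hb 7
    have hc : Continuous (fun t => 2 * b 2 t ^ 5 * b 7 t - 6 * b 2 t ^ 4 * b 3 t * b 6 t +
        15 * b 2 t ^ 3 * b 3 t ^ 2 * b 5 t - 20 * b 2 t ^ 2 * b 3 t ^ 3 * b 4 t +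
        9 * b 2 t * b 3 t ^ 5) := by fun_prop
    have h1 : (fun t => 2 * b 2 t ^ 5 * b 7 t - 6 * b 2 t ^ 4 * b 3 t * b 6 t +
        15 * b 2 t ^ 3 * b 3 t ^ 2 * b 5 t - 20 * b 2 t ^ 2 * b 3 t ^ 3 * b 4 t +
        9 * b 2 t * b 3 t ^ 5) =ᶠ[𝓝[>] 0] fun _ => 0 := by
      filter_upwards [Ioo_mem_nhdsGT hδ] with t ht using hrel t ht.1 ht.2
    have h2 := ((hc.tendsto 0).mono_left nhdsWithin_le_nhds).congr' h1
    exact tendsto_nhds_unique h2 tendsto_const_nhds
  have hΦ0 : ∀ s : ℝ, Φ (0, s) = h 0 * N₁ (0, 0) * (1 + 8 * s - (1 + s) ^ 8) := by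
    intro s
    rw [hΦ, hE]
    simp only [zero_mul, add_zero]
    norm_num
    ring
  obtain ⟨A, hA⟩ : ∃ A : ℝ, A = h 0 * N₁ (0, 0) := ⟨_, rfl⟩
  rw [← hA] at hΦ0
  have hAne : A ≠ 0 := by
    rw [hA]
    exact mul_ne_zero h0 hA0
  have hco := coef 8 (fun j => b j 0 + A * (if j < 2 then 0 else (Nat.choose 8 j : ℝ)))
    (fun s => -Ψ (0, s) - A)
    (by
      have : Continuous (fun s : ℝ => Ψ (0, s)) :=
        hΨ.continuous.comp (continuous_const.prodMk continuous_id)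
      fun_prop)
    (fun s => by
      have h1 := hT 0 s
      rw [hΦ0 s] at h1
      simp only [Finset.sum_range_succ, Finset.sum_range_zero] at h1 ⊢
      norm_num [Nat.choose] at h1 ⊢
      linear_combination -h1)
  have v2 := hco 2 (by norm_num)
  have v3 := hco 3 (by norm_num)
  have v4 := hco 4 (by norm_num)
  have v5 := hco 5 (by norm_num)
  have v6 := hco 6 (by norm_num)
  have v7 := hco 7 (by norm_num)
  norm_num [Nat.choose] at v2 v3 v4 v5 v6 v7
  have w2 : b 2 0 = -28 * A := by linarith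
  have w3 : b 3 0 = -56 * A := by linarith
  have w4 : b 4 0 = -70 * A := by linarith
  have w5 : b 5 0 = -56 * A := by linarith
  have w6 : b 6 0 = -28 * A := by linarith
  have w7 : b 7 0 = -8 * A := by linarith
  rw [w2, w3, w4, w5, w6, w7] at hrel0
  have h6 : A ^ 6 = 0 := by linear_combination (-1 / (96 * 28 ^ 5)) * hrel0
  exact hAne (pow_eq_zero_iff (by norm_num) |>.mp h6)

end Pool.Agent.H772.GX.END
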